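import Mathlib

/-!
# Connected sets in a forest
-/

open Finset

set_option linter.unusedSectionVars false

namespace Pool.Agent.Lib.MP_5bc52d_co.Tree

section graph
variable {P : Type*} [DecidableEq P] {H : SimpleGraph P}

/-- `S` is nonempty and connected -/
def Cn (H : SimpleGraph P) (S : Finset P) : Prop :=
  S.Nonempty ∧ ∀ T ⊆ S, T.Nonempty → (∀ x ∈ T, ∀ y ∈ S, H.Adj x y → y ∈ T) → T = S

theorem cn_single (x : P) : Cn H {x} :=
  ⟨Finset.singleton_nonempty x, fun _ hT hne _ =>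
    (Finset.subset_singleton_iff.mp hT).resolve_left hne.ne_empty⟩

theorem Cn.closed {S T X : Finset P} (hS : Cn H S) (hST : S ⊆ T)
    (hcl : ∀ x ∈ X, ∀ y ∈ T, H.Adj x y → y ∈ X) (h : (X ∩ S).Nonempty) : S ⊆ X := by
  have h1 := hS.2 (X ∩ S) Finset.inter_subset_right h (fun x hx y hy hxy => by
    rw [Finset.mem_inter] at hx ⊢
    exact ⟨hcl x hx.1 y (hST hy) hxy, hy⟩)
  rw [← h1]
  exact Finset.inter_subset_left

theorem Cn.union {S T : Finset P} (hS : Cn H S) (hT : Cn H T) (h : (S ∩ T).Nonempty) :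
    Cn H (S ∪ T) := by
  refine ⟨hS.1.mono Finset.subset_union_left, fun X hX hne hcl => ?_⟩
  have h1 : (X ∩ S).Nonempty → S ⊆ X := hS.closed Finset.subset_union_left hcl
  have h2 : (X ∩ T).Nonempty → T ⊆ X := hT.closed Finset.subset_union_right hcl
  obtain ⟨u, hu⟩ := h
  rw [Finset.mem_inter] at hu
  have h3 : S ⊆ X ∧ T ⊆ X := by
    obtain ⟨x, hx⟩ := hne
    rcases Finset.mem_union.mp (hX hx) with h | h
    · have h4 := h1 ⟨x, Finset.mem_inter.mpr ⟨hx, h⟩⟩
      exact ⟨h4, h2 ⟨u, Finset.mem_inter.mpr ⟨h4 hu.1, hu.2⟩⟩⟩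
    · have h4 := h2 ⟨x, Finset.mem_inter.mpr ⟨hx, h⟩⟩
      exact ⟨h1 ⟨u, Finset.mem_inter.mpr ⟨h4 hu.2, hu.1⟩⟩, h4⟩
  exact Finset.Subset.antisymm hX (Finset.union_subset h3.1 h3.2)

theorem cn_pair {x y : P} (h : H.Adj x y) : Cn H {x, y} := by
  refine ⟨⟨x, Finset.mem_insert_self x _⟩, fun T hT hne hcl => ?_⟩
  apply Finset.Subset.antisymm hT
  have hx : x ∈ T → y ∈ T := fun hx => hcl x hx y (by simp) h
  have hy : y ∈ T → x ∈ T := fun hy => hcl y hy x (by simp) h.symm
  obtain ⟨u, hu⟩ := hne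
  have h1 : x ∈ T ∧ y ∈ T := by
    rcases Finset.mem_insert.mp (hT hu) with h1 | h1
    · subst h1
      exact ⟨hu, hx hu⟩
    · rw [Finset.mem_singleton] at h1
      subst h1
      exact ⟨hy hu, hu⟩
  intro z hz
  rcases Finset.mem_insert.mp hz with h2 | h2
  · exact h2 ▸ h1.1
  · rw [Finset.mem_singleton] at h2
    exact h2 ▸ h1.2

/-- adding vertices which are in `S` or adjacent to `S` -/
theorem Cn.extend {S Z : Finset P} (hS : Cn H S)
    (hZ : ∀ z ∈ Z, z ∈ S ∨ ∃ s ∈ S, H.Adj z s) : Cn H (S ∪ Z) := by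
  refine ⟨hS.1.mono Finset.subset_union_left, fun X hX hne hcl => ?_⟩
  have h1 : (X ∩ S).Nonempty → S ⊆ X := hS.closed Finset.subset_union_left hcl
  have h2 : S ⊆ X := by
    obtain ⟨x, hx⟩ := hne
    by_cases hxS : x ∈ S
    · exact h1 ⟨x, Finset.mem_inter.mpr ⟨hx, hxS⟩⟩
    · have hxZ : x ∈ Z := (Finset.mem_union.mp (hX hx)).resolve_left hxS
      obtain ⟨s, hs, hxs⟩ := (hZ x hxZ).resolve_left hxS
      have h3 := hcl x hx s (Finset.mem_union_left _ hs) hxs
      exact h1 ⟨s, Finset.mem_inter.mpr ⟨h3, hs⟩⟩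
  apply Finset.Subset.antisymm hX
  intro z hz
  by_cases hzS : z ∈ S
  · exact h2 hzS
  · have hzZ : z ∈ Z := (Finset.mem_union.mp hz).resolve_left hzS
    obtain ⟨s, hs, hzs⟩ := (hZ z hzZ).resolve_left hzS
    exact hcl s (h2 hs) z hz hzs.symm

theorem Cn.ins {S : Finset P} (hS : Cn H S) {x s : P} (hs : s ∈ S) (h : H.Adj x s) :
    Cn H (insert x S) := by
  have h1 := hS.extend (Z := {x}) (fun z hz => by
    rw [Finset.mem_singleton] at hz
    exact Or.inr ⟨s, hs, hz ▸ h⟩)
  rwa [Finset.union_comm, ← Finset.insert_eq] at h1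

theorem Cn.walk {S : Finset P} (hS : Cn H S) {x y : P} (hx : x ∈ S) (hy : y ∈ S) :
    ∃ p : H.Walk x y, ∀ z ∈ p.support, z ∈ S := by
  classical
  have h1 : S.filter (fun y => ∃ p : H.Walk x y, ∀ z ∈ p.support, z ∈ S) = S := by
    refine hS.2 _ (Finset.filter_subset _ _) ⟨x, ?_⟩ ?_
    · rw [Finset.mem_filter]
      exact ⟨hx, SimpleGraph.Walk.nil, by simp [hx]⟩
    · intro u hu v hv huv
      rw [Finset.mem_filter] at hu ⊢
      obtain ⟨hu1, p, hp⟩ := hu
      refine ⟨hv, p.concat huv, ?_⟩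
      intro z hz
      rw [SimpleGraph.Walk.support_concat, List.mem_append,
        List.mem_singleton] at hz
      rcases hz with hz | hz
      · exact hp z hz
      · exact hz ▸ hv
  rw [← h1, Finset.mem_filter] at hy
  exact hy.2

theorem walk_closed {X Y : Finset P} (hcl : ∀ x ∈ X, ∀ y ∈ Y, H.Adj x y → y ∈ X) {x y : P}
    (p : H.Walk x y) (hp : ∀ z ∈ p.support, z ∈ Y) (hx : x ∈ X) : y ∈ X := by
  induction p with
  | nil => exact hx
  | cons h p ih =>
    apply ih
    · intro z hz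
      exact hp z (by rw [SimpleGraph.Walk.support_cons]; exact List.mem_cons_of_mem _ hz)
    · refine hcl _ hx _ (hp _ ?_) h
      rw [SimpleGraph.Walk.support_cons]
      exact List.mem_cons_of_mem _ (SimpleGraph.Walk.start_mem_support p)

theorem Cn.inter (hH : H.IsAcyclic) {S T : Finset P} (hS : Cn H S) (hT : Cn H T)
    (h : (S ∩ T).Nonempty) : Cn H (S ∩ T) := by
  classical
  refine ⟨h, fun X hX hne hcl => ?_⟩
  apply Finset.Subset.antisymm hX
  intro y hy
  obtain ⟨x, hx⟩ := hne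
  have hx' := Finset.mem_inter.mp (hX hx)
  have hy' := Finset.mem_inter.mp hy
  obtain ⟨p, hp⟩ := hS.walk hx'.1 hy'.1
  obtain ⟨q, hq⟩ := hT.walk hx'.2 hy'.2
  have h1 : p.toPath = q.toPath := (hH.subsingleton_path _ _).elim _ _
  refine walk_closed hcl (p.toPath : H.Walk x y) (fun z hz => ?_) hx
  rw [Finset.mem_inter]
  refine ⟨hp z (SimpleGraph.Walk.support_toPath_subset_support p hz), ?_⟩
  rw [h1] at hz
  exact hq z (SimpleGraph.Walk.support_toPath_subset_support q hz)

theorem Cn.star (hH : H.IsAcyclic) {S : Finset P} (hS : Cn H S) {x a b : P} (ha : a ∈ S)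
    (hb : b ∈ S) (hxa : H.Adj x a) (hxb : H.Adj x b) (hab : a ≠ b) : x ∈ S := by
  classical
  obtain ⟨p, hp⟩ := hS.walk ha hb
  have hq : (SimpleGraph.Walk.cons hxa.symm (SimpleGraph.Walk.cons hxb
      SimpleGraph.Walk.nil) : H.Walk a b).IsPath := by
    rw [SimpleGraph.Walk.isPath_def]
    simp [hab, hxa.ne', hxb.ne]
  have h1 : p.toPath = ⟨_, hq⟩ := (hH.subsingleton_path _ _).elim _ _
  have h2 : x ∈ (p.toPath : H.Walk a b).support := by
    rw [h1]
    simp
  exact hp x (SimpleGraph.Walk.support_toPath_subset_support p h2)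

/-- a connected set with at least two elements is obtained from a smaller one by adding a
neighbour -/
theorem Cn.exists_erase {U : Finset P} (hU : Cn H U) (h2 : 2 ≤ U.card) :
    ∃ y ∈ U, Cn H (U.erase y) ∧ ∃ s ∈ U.erase y, H.Adj y s := by
  classical
  obtain ⟨x, hx⟩ := hU.1
  have hne : (U.powerset.filter (fun S => Cn H S ∧ S ≠ U)).Nonempty := by
    refine ⟨{x}, Finset.mem_filter.mpr ⟨Finset.mem_powerset.mpr (by simpa using hx),
      cn_single x, fun h => ?_⟩⟩
    rw [← h, Finset.card_singleton] at h2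
    omega
  obtain ⟨S, hS, hmax⟩ := Finset.exists_max_image _ Finset.card hne
  rw [Finset.mem_filter, Finset.mem_powerset] at hS
  obtain ⟨hSU, hSC, hSne⟩ := hS
  have h3 : ∃ s ∈ S, ∃ y ∈ U, H.Adj s y ∧ y ∉ S := by
    by_contra hcon
    push Not at hcon
    exact hSne (hU.2 S hSU hSC.1 hcon)
  obtain ⟨s, hs, y, hy, hsy, hyS⟩ := h3
  have h4 : insert y S = U := by
    by_contra hcon
    have h5 := hmax (insert y S) (Finset.mem_filter.mpr ⟨Finset.mem_powerset.mpr
      (Finset.insert_subset hy hSU), hSC.ins hs hsy.symm, hcon⟩)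
    rw [Finset.card_insert_of_notMem hyS] at h5
    omega
  have h5 : U.erase y = S := by
    rw [← h4, Finset.erase_insert hyS]
  refine ⟨y, hy, h5 ▸ hSC, s, h5 ▸ hs, hsy.symm⟩

/-- local maxima of `w` -/
def Snk (H : SimpleGraph P) (w : P → ℤ) (U : Finset P) (z : P) : Prop :=
  z ∈ U ∧ ∀ y ∈ U, H.Adj z y → w y < w z

/-- connected sets which touch every local maximum -/
def VM (H : SimpleGraph P) (w : P → ℤ) (U M : Finset P) : Prop :=
  M ⊆ U ∧ Cn H M ∧ ∀ z, Snk H w U z → z ∈ M ∨ ∃ m ∈ M, H.Adj z m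

theorem VM.inter (hH : H.IsAcyclic) {w : P → ℤ} {U M N : Finset P} (hM : VM H w U M)
    (hN : VM H w U N) {z₁ z₂ : P} (h1 : Snk H w U z₁) (h2 : Snk H w U z₂) (h12 : z₁ ≠ z₂) :
    VM H w U (M ∩ N) := by
  classical
  set Z := U.filter (fun z => Snk H w U z) with hZ
  have hmZ : ∀ z, z ∈ Z ↔ Snk H w U z := fun z => by
    rw [hZ, Finset.mem_filter]
    exact ⟨fun h => h.2, fun h => ⟨h.1, h⟩⟩
  have hc1 : Cn H (M ∪ Z) := hM.2.1.extend (fun z hz => hM.2.2 z ((hmZ z).mp hz))
  have hc2 : Cn H (N ∪ Z) := hN.2.1.extend (fun z hz => hN.2.2 z ((hmZ z).mp hz))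
  have he : (M ∪ Z) ∩ (N ∪ Z) = (M ∩ N) ∪ Z := (Finset.inter_union_distrib_right M N Z).symm
  have hY : Cn H ((M ∩ N) ∪ Z) := by
    rw [← he]
    refine hc1.inter hH hc2 ⟨z₁, ?_⟩
    rw [he]
    exact Finset.mem_union_right _ ((hmZ z₁).mpr h1)
  have key : ∀ z, Snk H w U z → ∃ m ∈ M ∩ N, H.Adj z m := by
    intro z hz
    by_contra hcon
    push Not at hcon
    have h3 := hY.2 {z} (by
      rw [Finset.singleton_subset_iff]
      exact Finset.mem_union_right _ ((hmZ z).mpr hz)) (Finset.singleton_nonempty z) (by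
      intro x hx y hy hxy
      rw [Finset.mem_singleton] at hx
      subst hx
      exfalso
      rcases Finset.mem_union.mp hy with h | h
      · exact hcon y h hxy
      · have h4 := (hmZ y).mp h
        have h5 := hz.2 y h4.1 hxy
        have h6 := h4.2 x hz.1 hxy.symm
        omega)
    have h4 : z₁ ∈ ({z} : Finset P) := by
      rw [h3]
      exact Finset.mem_union_right _ ((hmZ z₁).mpr h1)
    have h5 : z₂ ∈ ({z} : Finset P) := by
      rw [h3]
      exact Finset.mem_union_right _ ((hmZ z₂).mpr h2)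
    rw [Finset.mem_singleton] at h4 h5
    exact h12 (h4.trans h5.symm)
  obtain ⟨m, hm, -⟩ := key z₁ h1
  exact ⟨Finset.inter_subset_left.trans hM.1, hM.2.1.inter hH hN.2.1 ⟨m, hm⟩,
    fun z hz => Or.inr (key z hz)⟩

/-- the smallest such set -/
theorem exists_min (hH : H.IsAcyclic) {w : P → ℤ} {U : Finset P} (hU : Cn H U) {z₁ z₂ : P}
    (h1 : Snk H w U z₁) (h2 : Snk H w U z₂) (h12 : z₁ ≠ z₂) :
    ∃ M, VM H w U M ∧ M.card < U.card ∧ ∀ N, VM H w U N → N.card = M.card → N = M := by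
  classical
  have hcard : 2 ≤ U.card := by
    have h3 : ({z₁, z₂} : Finset P) ⊆ U := by
      intro x hx
      rcases Finset.mem_insert.mp hx with h | h
      · exact h ▸ h1.1
      · rw [Finset.mem_singleton] at h
        exact h ▸ h2.1
    have := Finset.card_le_card h3
    rwa [Finset.card_pair h12] at this
  obtain ⟨y, hy, hyC, s, hs, hys⟩ := hU.exists_erase hcard
  have hV : VM H w U (U.erase y) := by
    refine ⟨Finset.erase_subset _ _, hyC, fun z hz => ?_⟩
    by_cases hzy : z = y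
    · exact Or.inr ⟨s, hs, hzy ▸ hys⟩
    · exact Or.inl (Finset.mem_erase.mpr ⟨hzy, hz.1⟩)
  have hne : (U.powerset.filter (fun M => VM H w U M)).Nonempty :=
    ⟨U.erase y, Finset.mem_filter.mpr ⟨Finset.mem_powerset.mpr hV.1, hV⟩⟩
  obtain ⟨M, hM, hmin⟩ := Finset.exists_min_image _ Finset.card hne
  rw [Finset.mem_filter] at hM
  refine ⟨M, hM.2, ?_, fun N hN hNM => ?_⟩
  · have h3 := hmin (U.erase y) (Finset.mem_filter.mpr ⟨Finset.mem_powerset.mpr hV.1, hV⟩)
    have h4 := Finset.card_erase_lt_of_mem hy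
    omega
  · have h3 := hM.2.inter hH hN h1 h2 h12
    have h4 := hmin (M ∩ N) (Finset.mem_filter.mpr ⟨Finset.mem_powerset.mpr h3.1, h3⟩)
    have h5 : M ∩ N = M := Finset.eq_of_subset_of_card_le Finset.inter_subset_left h4
    have h6 : M ⊆ N := by
      rw [← h5]
      exact Finset.inter_subset_right
    exact (Finset.eq_of_subset_of_card_le h6 (by omega)).symm

/-- from `y` one reaches `M` without meeting `x` -/
theorem reach_M {w : P → ℤ} (hw : Function.Injective w) {U M : Finset P}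
    (hV : ∀ z, Snk H w U z → z ∈ M ∨ ∃ m ∈ M, H.Adj z m) {x : P} (hx : x ∉ M) (n : ℕ) :
    ∀ y ∈ U, (U.filter (fun u => w y < w u)).card = n → (y ∈ M ∨ w x < w y) →
      ∃ S, Cn H S ∧ y ∈ S ∧ x ∉ S ∧ (S ∩ M).Nonempty := by
  induction n using Nat.strong_induction_on with
  | _ n ih =>
    intro y hy hn h
    by_cases hyM : y ∈ M
    · refine ⟨{y}, cn_single y, Finset.mem_singleton_self y, ?_, ⟨y, by simp [hyM]⟩⟩
      rw [Finset.mem_singleton]
      rintro rfl
      exact hx hyM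
    · have hxy : w x < w y := h.resolve_left hyM
      have hxney : x ≠ y := by
        rintro rfl
        exact lt_irrefl _ hxy
      by_cases hadj : ∃ m ∈ M, H.Adj y m
      · obtain ⟨m, hm, hym⟩ := hadj
        refine ⟨{y, m}, cn_pair hym, Finset.mem_insert_self _ _, ?_, ⟨m, by simp [hm]⟩⟩
        rw [Finset.mem_insert, Finset.mem_singleton, not_or]
        refine ⟨hxney, ?_⟩
        rintro rfl
        exact hx hm
      · have hns : ¬ Snk H w U y := fun h1 => by
          rcases hV y h1 with h2 | h2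
          · exact hyM h2
          · exact hadj h2
        rw [Snk, not_and] at hns
        have h3 := hns hy
        push Not at h3
        obtain ⟨u, hu, hyu, h4⟩ := h3
        have h5 : w y < w u := lt_of_le_of_ne h4 (fun h6 => hyu.ne (hw h6))
        have h6 : (U.filter (fun v => w u < w v)).card < n := by
          rw [← hn]
          apply Finset.card_lt_card
          rw [Finset.ssubset_iff_of_subset]
          · exact ⟨u, Finset.mem_filter.mpr ⟨hu, h5⟩, fun h7 =>
              lt_irrefl _ (Finset.mem_filter.mp h7).2⟩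
          · intro v hv
            rw [Finset.mem_filter] at hv ⊢
            exact ⟨hv.1, h5.trans hv.2⟩
        obtain ⟨S, hS, huS, hxS, hSM⟩ := ih _ h6 u hu rfl (Or.inr (hxy.trans h5))
        refine ⟨insert y S, hS.ins huS hyu, Finset.mem_insert_self _ _, ?_, ?_⟩
        · rw [Finset.mem_insert, not_or]
          exact ⟨hxney, hxS⟩
        · obtain ⟨m, hm⟩ := hSM
          rw [Finset.mem_inter] at hm
          exact ⟨m, Finset.mem_inter.mpr ⟨Finset.mem_insert_of_mem hm.1, hm.2⟩⟩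

/-- outside `M` there is at most one way out -/
theorem one_out (hH : H.IsAcyclic) {w : P → ℤ} (hw : Function.Injective w) {U M : Finset P}
    (hV : VM H w U M) {x a b : P} (hx : x ∉ M) (ha : a ∈ U) (hb : b ∈ U)
    (hxa : H.Adj x a) (hxb : H.Adj x b) (ha' : a ∈ M ∨ w x < w a) (hb' : b ∈ M ∨ w x < w b) :
    a = b := by
  by_contra hab
  obtain ⟨S, hS, haS, hxS, s, hs⟩ := reach_M hw hV.2.2 hx _ a ha rfl ha'
  obtain ⟨T, hT, hbT, hxT, t, ht⟩ := reach_M hw hV.2.2 hx _ b hb rfl hb'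
  rw [Finset.mem_inter] at hs ht
  have h1 : Cn H (S ∪ M) := hS.union hV.2.1 ⟨s, Finset.mem_inter.mpr hs⟩
  have h2 : Cn H ((S ∪ M) ∪ T) := h1.union hT ⟨t, Finset.mem_inter.mpr
    ⟨Finset.mem_union_right _ ht.2, ht.1⟩⟩
  have h3 := h2.star hH (Finset.mem_union_left _ (Finset.mem_union_left _ haS))
    (Finset.mem_union_right _ hbT) hxa hxb hab
  rcases Finset.mem_union.mp h3 with h4 | h4
  · rcases Finset.mem_union.mp h4 with h5 | h5
    · exact hxS h5
    · exact hx h5
  · exact hxT h4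

end graph

end Pool.Agent.Lib.MP_5bc52d_co.Tree
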