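import Mathlib
import Pool.Agent.Lib.MP_5bc52d_co.Gen
import Pool.Agent.Lib.MP_5bc52d_co.Tree.Graph

/-!
# Pairs of an initial and a final part, relative to the Hasse diagram
-/

open Finset

set_option linter.unusedSectionVars false

namespace Pool.Agent.Lib.MP_5bc52d_co.Tree

section order
variable {P : Type*} [Fintype P] [DecidableEq P] [PartialOrder P]

/-- intermediate elements belong to the set -/
def Cvx (U : Finset P) : Prop := ∀ a ∈ U, ∀ b ∈ U, ∀ x, a < x → x < b → x ∈ U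

theorem exists_chain (b : P) : ∀ a : P, a ≤ b → ∃ S : Finset P, Cn (SimpleGraph.hasse P) S ∧
    a ∈ S ∧ b ∈ S ∧ ∀ s ∈ S, a ≤ s ∧ s ≤ b := by
  intro a
  induction a using WellFoundedGT.induction with
  | _ a ih =>
    intro hab
    rcases hab.eq_or_lt with h | h
    · subst h
      exact ⟨{a}, cn_single a, Finset.mem_singleton_self a, Finset.mem_singleton_self a,
        fun s hs => by rw [Finset.mem_singleton] at hs; exact ⟨hs.ge, hs.le⟩⟩
    · obtain ⟨c, hac, hcb⟩ := exists_covBy_le_of_lt h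
      obtain ⟨S, hS, hcS, hbS, hS'⟩ := ih c hac.lt hcb
      refine ⟨insert a S, hS.ins hcS (Or.inl hac), Finset.mem_insert_self _ _,
        Finset.mem_insert_of_mem hbS, fun s hs => ?_⟩
      rcases Finset.mem_insert.mp hs with h1 | h1
      · exact ⟨h1.ge, h1 ▸ hab⟩
      · exact ⟨hac.le.trans (hS' s h1).1, (hS' s h1).2⟩

/-- connected sets are convex when the Hasse diagram is a forest -/
theorem Cn.cvx (hH : (SimpleGraph.hasse P).IsAcyclic) {U : Finset P}
    (hU : Cn (SimpleGraph.hasse P) U) : Cvx U := by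
  classical
  intro a ha b hb x hax hxb
  obtain ⟨S, hS, haS, hxS, hS'⟩ := exists_chain x a hax.le
  obtain ⟨T, hT, hxT, hbT, hT'⟩ := exists_chain b x hxb.le
  have h1 : Cn (SimpleGraph.hasse P) (S ∪ T) := hS.union hT ⟨x, Finset.mem_inter.mpr ⟨hxS, hxT⟩⟩
  have h2 := h1.inter hH hU ⟨a, Finset.mem_inter.mpr ⟨Finset.mem_union_left _ haS, ha⟩⟩
  by_contra hx
  have h3 := h2.2 (((S ∪ T) ∩ U).filter (fun s => s ≤ x)) (Finset.filter_subset _ _)
    ⟨a, Finset.mem_filter.mpr ⟨Finset.mem_inter.mpr ⟨Finset.mem_union_left _ haS, ha⟩, hax.le⟩⟩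
    (by
      intro u hu v hv huv
      rw [Finset.mem_filter] at hu ⊢
      refine ⟨hv, ?_⟩
      by_contra hvx
      have hv' := Finset.mem_inter.mp hv
      have hxv : x ≤ v := by
        rcases Finset.mem_union.mp hv'.1 with h | h
        · exact absurd (hS' v h).2 hvx
        · exact (hT' v h).1
      have hux : u < x := lt_of_le_of_ne hu.2 (fun h => hx (h ▸ (Finset.mem_inter.mp hu.1).2))
      have hxv' : x < v := lt_of_le_of_ne hxv (fun h => hx (h ▸ hv'.2))
      rw [SimpleGraph.hasse_adj] at huv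
      rcases huv with h | h
      · exact h.2 hux hxv'
      · exact absurd (hux.trans hxv') (lt_asymm h.lt))
  have h4 : b ∈ ((S ∪ T) ∩ U).filter (fun s => s ≤ x) := by
    rw [h3]
    exact Finset.mem_inter.mpr ⟨Finset.mem_union_right _ hbT, hb⟩
  exact absurd (Finset.mem_filter.mp h4).2 (not_le_of_gt hxb)

/-- a cover below -/
theorem cov_below {U : Finset P} (hU : Cvx U) {a b : P} (ha : a ∈ U) (hb : b ∈ U) (h : a < b) :
    ∃ c ∈ U, c ⋖ b ∧ (a = c ∨ a < c) := by
  obtain ⟨c, hac, hcb⟩ := exists_le_covBy_of_lt h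
  rcases hac.eq_or_lt with h1 | h1
  · exact ⟨c, h1 ▸ ha, hcb, Or.inl h1⟩
  · exact ⟨c, hU a ha b hb c h1 hcb.lt, hcb, Or.inr h1⟩

/-- a cover above -/
theorem cov_above {U : Finset P} (hU : Cvx U) {a b : P} (ha : a ∈ U) (hb : b ∈ U) (h : b < a) :
    ∃ c ∈ U, b ⋖ c ∧ (a = c ∨ c < a) := by
  obtain ⟨c, hbc, hca⟩ := exists_covBy_le_of_lt h
  rcases hca.eq_or_lt with h1 | h1
  · exact ⟨c, h1 ▸ ha, hbc, Or.inl h1.symm⟩
  · exact ⟨c, hU b hb a ha c hbc.lt h1, hbc, Or.inr h1⟩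

theorem wk_of_cov {U S : Finset P} (hU : Cvx U) {w : P → ℤ} (hS : S ⊆ U)
    (h : ∀ b ∈ S, ∀ c ∈ U, c ⋖ b → c ∈ S ∧ w c < w b) : Wk (fun a b : P => a < b) w U S := by
  refine ⟨hS, fun a ha b => ?_⟩
  induction b using WellFoundedLT.induction with
  | _ b ih =>
    intro hb hab
    obtain ⟨c, hc, hcb, h1⟩ := cov_below hU ha (hS hb) hab
    obtain ⟨h2, h3⟩ := h b hb c hc hcb
    rcases h1 with h1 | h1
    · exact h1 ▸ ⟨h2, h3⟩
    · have h4 := ih c hcb.lt h2 h1
      exact ⟨h4.1, h4.2.trans h3⟩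

theorem wk_of_cov' {U S : Finset P} (hU : Cvx U) {w : P → ℤ} (hS : S ⊆ U)
    (h : ∀ b ∈ S, ∀ c ∈ U, b ⋖ c → c ∈ S ∧ w c < w b) : Wk (fun a b : P => b < a) w U S := by
  refine ⟨hS, fun a ha b => ?_⟩
  induction b using WellFoundedGT.induction with
  | _ b ih =>
    intro hb hab
    obtain ⟨c, hc, hbc, h1⟩ := cov_above hU ha (hS hb) hab
    obtain ⟨h2, h3⟩ := h b hb c hc hbc
    rcases h1 with h1 | h1
    · exact h1 ▸ ⟨h2, h3⟩
    · have h4 := ih c hbc.lt h2 h1
      exact ⟨h4.1, h4.2.trans h3⟩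

open Classical in
/-- pairs of an initial part and a final part -/
noncomputable def pr (w : P → ℤ) (U : Finset P) : Finset (Finset P × Finset P) :=
  (U.powerset ×ˢ U.powerset).filter (fun p => Wk (fun a b : P => a < b) w U p.1 ∧
    Wk (fun a b : P => b < a) w (U \ p.1) p.2)

theorem mem_pr {w : P → ℤ} {U : Finset P} {p : Finset P × Finset P} :
    p ∈ pr w U ↔ Wk (fun a b : P => a < b) w U p.1 ∧
      Wk (fun a b : P => b < a) w (U \ p.1) p.2 := by
  classical
  rw [pr, Finset.mem_filter, Finset.mem_product, Finset.mem_powerset, Finset.mem_powerset]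
  constructor
  · exact fun h => h.2
  · intro h
    exact ⟨⟨h.1.1, h.2.1.trans Finset.sdiff_subset⟩, h⟩

theorem sum_pr {w : P → ℤ} {U : Finset P} {M : Type*} [AddCommMonoid M]
    (f : Finset P → Finset P → M) :
    ∑ I ∈ wks (fun a b : P => a < b) w U, ∑ F ∈ wks (fun a b : P => b < a) w (U \ I), f I F =
      ∑ p ∈ pr w U, f p.1 p.2 := by
  rw [Finset.sum_sigma']
  refine Finset.sum_bij' (fun p _ => (p.1, p.2)) (fun p _ => ⟨p.1, p.2⟩) ?_ ?_ ?_ ?_ ?_
  · intro p hp
    rw [Finset.mem_sigma, mem_wks, mem_wks] at hp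
    exact mem_pr.mpr hp
  · intro p hp
    rw [Finset.mem_sigma, mem_wks, mem_wks]
    exact mem_pr.mp hp
  · intro p _; rfl
  · intro p _; rfl
  · intro p _; rfl

theorem pr_disj {w : P → ℤ} {U : Finset P} {p : Finset P × Finset P} (hp : p ∈ pr w U)
    {x : P} (h1 : x ∈ p.1) (h2 : x ∈ p.2) : False :=
  (Finset.mem_sdiff.mp ((mem_pr.mp hp).2.1 h2)).2 h1

/-- move `z` to the other side -/
def tog (z : P) (p : Finset P × Finset P) : Finset P × Finset P :=
  if z ∈ p.1 then (p.1.erase z, insert z p.2) else (insert z p.1, p.2.erase z)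

/-- the complement -/
def mid (U : Finset P) (p : Finset P × Finset P) : Finset P := (U \ p.1) \ p.2

theorem mem_mid {U : Finset P} {p : Finset P × Finset P} {x : P} :
    x ∈ mid U p ↔ x ∈ U ∧ x ∉ p.1 ∧ x ∉ p.2 := by
  rw [mid, Finset.mem_sdiff, Finset.mem_sdiff, and_assoc]

theorem tog_mem {w : P → ℤ} {U : Finset P} (hU : Cvx U) {p : Finset P × Finset P}
    (hp : p ∈ pr w U) {z : P} (hz : Snk (SimpleGraph.hasse P) w U z) (hzM : z ∉ mid U p)
    (hadj : ∀ m ∈ mid U p, ¬ (SimpleGraph.hasse P).Adj z m) : tog z p ∈ pr w U := by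
  obtain ⟨hI, hF⟩ := mem_pr.mp hp
  obtain ⟨hzU, hz'⟩ := hz
  have hor : z ∈ p.1 ∨ z ∈ p.2 := by
    by_contra h
    rw [not_or] at h
    exact hzM (mem_mid.mpr ⟨hzU, h.1, h.2⟩)
  have hup : ∀ c ∈ U, z ⋖ c → w c < w z := fun c hc h => hz' c hc (Or.inl h)
  have hdn : ∀ c ∈ U, c ⋖ z → w c < w z := fun c hc h => hz' c hc (Or.inr h)
  have hm1 : ∀ c ∈ U, z ⋖ c → c ∈ p.1 ∨ c ∈ p.2 := by
    intro c hc h
    by_contra h1
    rw [not_or] at h1
    exact hadj c (mem_mid.mpr ⟨hc, h1.1, h1.2⟩) (Or.inl h)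
  have hm2 : ∀ c ∈ U, c ⋖ z → c ∈ p.1 ∨ c ∈ p.2 := by
    intro c hc h
    by_contra h1
    rw [not_or] at h1
    exact hadj c (mem_mid.mpr ⟨hc, h1.1, h1.2⟩) (Or.inr h)
  rw [tog]
  split_ifs with hzI
  · -- `z` moves to the final part
    have hzF : z ∉ p.2 := fun h => pr_disj hp hzI h
    -- covers of `z` are in the final part
    have hc : ∀ c ∈ U, z ⋖ c → c ∈ p.2 := by
      intro c hc h
      refine (hm1 c hc h).resolve_left (fun h1 => ?_)
      have h2 := (hI.2 z hzU c h1 h.lt).2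
      have h3 := hup c hc h
      omega
    rw [mem_pr]
    refine ⟨⟨(Finset.erase_subset _ _).trans hI.1, fun a ha b hb hab => ?_⟩, ?_, ?_⟩
    · rw [Finset.mem_erase] at hb ⊢
      have h1 := hI.2 a ha b hb.2 hab
      refine ⟨⟨fun h2 => ?_, h1.1⟩, h1.2⟩
      subst h2
      obtain ⟨c, hcU, hzc, hcb⟩ := cov_above hU (hI.1 hb.2) hzU hab
      have h3 := hc c hcU hzc
      rcases hcb with h4 | h4
      · exact pr_disj hp hb.2 (h4 ▸ h3)
      · exact pr_disj hp (hI.2 c hcU b hb.2 h4).1 h3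
    · intro x hx
      rw [Finset.mem_sdiff, Finset.mem_erase]
      rcases Finset.mem_insert.mp hx with h1 | h1
      · subst h1
        exact ⟨hzU, fun h => h.1 rfl⟩
      · have h2 := Finset.mem_sdiff.mp (hF.1 h1)
        exact ⟨h2.1, fun h => h2.2 h.2⟩
    · intro a ha b hb hab
      rw [Finset.mem_sdiff, Finset.mem_erase, not_and] at ha
      rcases Finset.mem_insert.mp hb with h1 | h1
      · subst h1
        have haz : a ≠ b := hab.ne'
        have haI : a ∉ p.1 := ha.2 haz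
        obtain ⟨c, hcU, hbc, hca⟩ := cov_above hU ha.1 hzU hab
        have h3 := hc c hcU hbc
        have h4 := hup c hcU hbc
        rcases hca with h5 | h5
        · subst h5
          exact ⟨Finset.mem_insert_of_mem h3, h4⟩
        · have h6 := hF.2 a (Finset.mem_sdiff.mpr ⟨ha.1, haI⟩) c h3 h5
          exact ⟨Finset.mem_insert_of_mem h6.1, h6.2.trans h4⟩
      · have haz : a ≠ z := by
          rintro rfl
          have hbU := (Finset.mem_sdiff.mp (hF.1 h1)).1
          exact pr_disj hp (hI.2 b hbU a hzI hab).1 h1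
        have h6 := hF.2 a (Finset.mem_sdiff.mpr ⟨ha.1, ha.2 haz⟩) b h1 hab
        exact ⟨Finset.mem_insert_of_mem h6.1, h6.2⟩
  · -- `z` moves to the initial part
    have hzF : z ∈ p.2 := hor.resolve_left hzI
    have hc : ∀ c ∈ U, c ⋖ z → c ∈ p.1 := by
      intro c hc h
      refine (hm2 c hc h).resolve_right (fun h1 => ?_)
      have h2 := (hF.2 z (hF.1 hzF) c h1 h.lt).2
      have h3 := hdn c hc h
      omega
    rw [mem_pr]
    refine ⟨⟨Finset.insert_subset hzU hI.1, fun a ha b hb hab => ?_⟩, ?_, ?_⟩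
    · rcases Finset.mem_insert.mp hb with h1 | h1
      · subst h1
        obtain ⟨c, hcU, hcb, hac⟩ := cov_below hU ha hzU hab
        have h3 := hc c hcU hcb
        have h4 := hdn c hcU hcb
        rcases hac with h5 | h5
        · subst h5
          exact ⟨Finset.mem_insert_of_mem h3, h4⟩
        · have h6 := hI.2 a ha c h3 h5
          exact ⟨Finset.mem_insert_of_mem h6.1, h6.2.trans h4⟩
      · have h6 := hI.2 a ha b h1 hab
        exact ⟨Finset.mem_insert_of_mem h6.1, h6.2⟩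
    · intro x hx
      rw [Finset.mem_erase] at hx
      have h2 := Finset.mem_sdiff.mp (hF.1 hx.2)
      rw [Finset.mem_sdiff, Finset.mem_insert, not_or]
      exact ⟨h2.1, hx.1, h2.2⟩
    · intro a ha b hb hab
      rw [Finset.mem_sdiff, Finset.mem_insert, not_or] at ha
      rw [Finset.mem_erase] at hb ⊢
      have h6 := hF.2 a (Finset.mem_sdiff.mpr ⟨ha.1, ha.2.2⟩) b hb.2 hab
      exact ⟨⟨ha.2.1, h6.1⟩, h6.2⟩

theorem mid_tog {U : Finset P} {p : Finset P × Finset P} {z : P}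
    (hz : z ∈ p.1 ∨ z ∈ p.2) : mid U (tog z p) = mid U p := by
  ext x
  rw [mem_mid, mem_mid, tog]
  by_cases hx : x = z
  · subst hx
    split_ifs with h
    · simp [h]
    · simp [hz.resolve_left h]
  · split_ifs with h
    · simp [hx]
    · simp [hx]

theorem tog_tog {p : Finset P × Finset P} {z : P} (hz : z ∈ p.1 ∨ z ∈ p.2)
    (hd : ¬ (z ∈ p.1 ∧ z ∈ p.2)) : tog z (tog z p) = p := by
  by_cases h : z ∈ p.1
  · have h2 : z ∉ p.2 := fun h' => hd ⟨h, h'⟩
    have e1 : tog z p = (p.1.erase z, insert z p.2) := by rw [tog, if_pos h]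
    rw [e1, tog, if_neg (Finset.notMem_erase z p.1), Finset.insert_erase h,
      Finset.erase_insert h2]
  · have h2 : z ∈ p.2 := hz.resolve_left h
    have e1 : tog z p = (insert z p.1, p.2.erase z) := by rw [tog, if_neg h]
    rw [e1, tog, if_pos (Finset.mem_insert_self z p.1), Finset.erase_insert h,
      Finset.insert_erase h2]

/-- the signed number of pairs with complement `M` -/
noncomputable def SM (w : P → ℤ) (U M : Finset P) : ℚ :=
  ∑ p ∈ (pr w U).filter (fun p => mid U p = M), (-1 : ℚ) ^ p.2.card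

theorem SM_zero {w : P → ℤ} {U : Finset P} (hU : Cvx U) {M : Finset P} {z : P}
    (hz : Snk (SimpleGraph.hasse P) w U z) (hzM : z ∉ M)
    (hadj : ∀ m ∈ M, ¬ (SimpleGraph.hasse P).Adj z m) : SM w U M = 0 := by
  rw [SM]
  have hor : ∀ p ∈ (pr w U).filter (fun p => mid U p = M), z ∈ p.1 ∨ z ∈ p.2 := by
    intro p hp
    rw [Finset.mem_filter] at hp
    by_contra h
    rw [not_or] at h
    exact hzM (hp.2 ▸ mem_mid.mpr ⟨hz.1, h.1, h.2⟩)
  have hd : ∀ p ∈ (pr w U).filter (fun p => mid U p = M), ¬ (z ∈ p.1 ∧ z ∈ p.2) := by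
    intro p hp h
    exact pr_disj (Finset.mem_filter.mp hp).1 h.1 h.2
  refine Finset.sum_involution (fun p _ => tog z p) ?_ ?_ ?_ ?_
  · intro p hp
    simp only [tog]
    split_ifs with h
    · have h2 : z ∉ p.2 := fun h' => hd p hp ⟨h, h'⟩
      rw [Finset.card_insert_of_notMem h2, pow_succ]
      ring
    · have h2 : z ∈ p.2 := (hor p hp).resolve_left h
      rw [← Finset.card_erase_add_one h2, pow_succ]
      ring
  · intro p hp _ heq
    have h1 := congrArg (fun q : Finset P × Finset P => z ∈ q.1) heq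
    simp only [tog] at h1
    split_ifs at h1 with h
    · simp [h] at h1
    · simp [h] at h1
  · intro p hp
    have hp' := Finset.mem_filter.mp hp
    rw [Finset.mem_filter]
    refine ⟨tog_mem hU hp'.1 hz (by rw [hp'.2]; exact hzM) (by rw [hp'.2]; exact hadj), ?_⟩
    rw [mid_tog (hor p hp), hp'.2]
  · intro p hp
    exact tog_tog (hor p hp) (hd p hp)

/-- there is a way up -/
def UO (w : P → ℤ) (U M : Finset P) (x : P) : Prop := ∃ y ∈ U, x ⋖ y ∧ (y ∈ M ∨ w x < w y)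

/-- there is a way down -/
def DO (w : P → ℤ) (U M : Finset P) (x : P) : Prop := ∃ y ∈ U, y ⋖ x ∧ (y ∈ M ∨ w x < w y)

theorem eq_one {w : P → ℤ} (hw : Function.Injective w) {U M : Finset P} (hU : Cvx U)
    (hMU : M ⊆ U) (h1 : ∀ x ∈ U, x ∉ M → UO w U M x ∨ DO w U M x)
    (h2 : ∀ x ∈ U, x ∉ M → ¬ (UO w U M x ∧ DO w U M x)) :
    ∃ p₀ : Finset P × Finset P, (pr w U).filter (fun p => mid U p = M) = {p₀} := by
  classical
  set I := U.filter (fun x => x ∉ M ∧ UO w U M x) with hI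
  set F := U.filter (fun x => x ∉ M ∧ DO w U M x) with hF
  have mI : ∀ x, x ∈ I ↔ x ∈ U ∧ x ∉ M ∧ UO w U M x := fun x => by rw [hI, Finset.mem_filter]
  have mF : ∀ x, x ∈ F ↔ x ∈ U ∧ x ∉ M ∧ DO w U M x := fun x => by rw [hF, Finset.mem_filter]
  have hWI : Wk (fun a b : P => a < b) w U I := by
    refine wk_of_cov hU (Finset.filter_subset _ _) (fun b hb c hc hcb => ?_)
    obtain ⟨hbU, hbM, hb'⟩ := (mI b).mp hb
    have hnd : ¬ DO w U M b := fun h => h2 b hbU hbM ⟨hb', h⟩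
    have hcM : c ∉ M := fun h => hnd ⟨c, hc, hcb, Or.inl h⟩
    have hlt : w c < w b := by
      rcases lt_trichotomy (w c) (w b) with h | h | h
      · exact h
      · exact absurd (hw h) hcb.lt.ne
      · exact absurd ⟨c, hc, hcb, Or.inr h⟩ hnd
    exact ⟨(mI c).mpr ⟨hc, hcM, b, hbU, hcb, Or.inr hlt⟩, hlt⟩
  have hWF : Wk (fun a b : P => b < a) w U F := by
    refine wk_of_cov' hU (Finset.filter_subset _ _) (fun b hb c hc hbc => ?_)
    obtain ⟨hbU, hbM, hb'⟩ := (mF b).mp hb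
    have hnd : ¬ UO w U M b := fun h => h2 b hbU hbM ⟨h, hb'⟩
    have hcM : c ∉ M := fun h => hnd ⟨c, hc, hbc, Or.inl h⟩
    have hlt : w c < w b := by
      rcases lt_trichotomy (w c) (w b) with h | h | h
      · exact h
      · exact absurd (hw h) hbc.lt.ne'
      · exact absurd ⟨c, hc, hbc, Or.inr h⟩ hnd
    exact ⟨(mF c).mpr ⟨hc, hcM, b, hbU, hbc, Or.inr hlt⟩, hlt⟩
  have hFI : F ⊆ U \ I := by
    intro x hx
    obtain ⟨h3, h4, h5⟩ := (mF x).mp hx
    rw [Finset.mem_sdiff]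
    exact ⟨h3, fun h6 => h2 x h3 h4 ⟨((mI x).mp h6).2.2, h5⟩⟩
  have hp : (I, F) ∈ pr w U := by
    rw [mem_pr]
    exact ⟨hWI, hFI, fun a ha b hb hab => hWF.2 a (Finset.mem_sdiff.mp ha).1 b hb hab⟩
  refine ⟨(I, F), ?_⟩
  ext p
  rw [Finset.mem_filter, Finset.mem_singleton]
  constructor
  · rintro ⟨hp', hm⟩
    obtain ⟨hpI, hpF⟩ := mem_pr.mp hp'
    have hUO : ∀ x ∈ U, x ∉ M → UO w U M x → x ∈ p.1 := by
      rintro x hx hxM ⟨y, hy, hxy, h⟩
      by_contra hx1
      have hx2 : x ∈ p.2 := by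
        by_contra hx2
        exact hxM (hm ▸ mem_mid.mpr ⟨hx, hx1, hx2⟩)
      have hy1 : y ∉ p.1 := fun h' => hx1 (hpI.2 x hx y h' hxy.lt).1
      have h3 := hpF.2 y (Finset.mem_sdiff.mpr ⟨hy, hy1⟩) x hx2 hxy.lt
      rcases h with h | h
      · rw [← hm, mem_mid] at h
        exact h.2.2 h3.1
      · omega
    have hDO : ∀ x ∈ U, x ∉ M → DO w U M x → x ∈ p.2 := by
      rintro x hx hxM ⟨y, hy, hyx, h⟩
      by_contra hx2
      have hx1 : x ∈ p.1 := by
        by_contra hx1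
        exact hxM (hm ▸ mem_mid.mpr ⟨hx, hx1, hx2⟩)
      have h3 := hpI.2 y hy x hx1 hyx.lt
      rcases h with h | h
      · rw [← hm, mem_mid] at h
        exact h.2.1 h3.1
      · omega
    have hM1 : ∀ x ∈ p.1, x ∈ U ∧ x ∉ M := fun x hx =>
      ⟨hpI.1 hx, fun h => (mem_mid.mp (hm ▸ h)).2.1 hx⟩
    have hM2 : ∀ x ∈ p.2, x ∈ U ∧ x ∉ M := fun x hx =>
      ⟨(Finset.mem_sdiff.mp (hpF.1 hx)).1, fun h => (mem_mid.mp (hm ▸ h)).2.2 hx⟩
    apply Prod.ext
    · ext x
      rw [mI]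
      constructor
      · intro hx
        obtain ⟨h3, h4⟩ := hM1 x hx
        refine ⟨h3, h4, (h1 x h3 h4).resolve_right (fun h5 => ?_)⟩
        exact pr_disj hp' hx (hDO x h3 h4 h5)
      · rintro ⟨h3, h4, h5⟩
        exact hUO x h3 h4 h5
    · ext x
      rw [mF]
      constructor
      · intro hx
        obtain ⟨h3, h4⟩ := hM2 x hx
        refine ⟨h3, h4, (h1 x h3 h4).resolve_left (fun h5 => ?_)⟩
        exact pr_disj hp' (hUO x h3 h4 h5) hx
      · rintro ⟨h3, h4, h5⟩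
        exact hDO x h3 h4 h5
  · rintro rfl
    refine ⟨hp, ?_⟩
    ext x
    rw [mem_mid]
    constructor
    · rintro ⟨h3, h4, h5⟩
      by_contra h6
      rcases h1 x h3 h6 with h7 | h7
      · exact h4 ((mI x).mpr ⟨h3, h6, h7⟩)
      · exact h5 ((mF x).mpr ⟨h3, h6, h7⟩)
    · intro h3
      exact ⟨hMU h3, fun h4 => ((mI x).mp h4).2.1 h3, fun h4 => ((mF x).mp h4).2.1 h3⟩

/-- for a set touching all local maxima there is exactly one pair -/
theorem VM.eq_one (hH : (SimpleGraph.hasse P).IsAcyclic) {w : P → ℤ}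
    (hw : Function.Injective w) {U M : Finset P} (hU : Cvx U)
    (hV : VM (SimpleGraph.hasse P) w U M) :
    ∃ p₀ : Finset P × Finset P, (pr w U).filter (fun p => mid U p = M) = {p₀} := by
  refine Tree.eq_one hw hU hV.1 (fun x hx hxM => ?_) ?_
  · by_cases hs : Snk (SimpleGraph.hasse P) w U x
    · obtain ⟨m, hm, hxm⟩ := (hV.2.2 x hs).resolve_left hxM
      rcases hxm with h | h
      · exact Or.inl ⟨m, hV.1 hm, h, Or.inl hm⟩
      · exact Or.inr ⟨m, hV.1 hm, h, Or.inl hm⟩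
    · rw [Snk, not_and] at hs
      have h3 := hs hx
      push Not at h3
      obtain ⟨u, hu, hxu, h4⟩ := h3
      have h5 : w x < w u := lt_of_le_of_ne h4 (fun h6 => hxu.ne (hw h6))
      rcases hxu with h | h
      · exact Or.inl ⟨u, hu, h, Or.inr h5⟩
      · exact Or.inr ⟨u, hu, h, Or.inr h5⟩
  · rintro x - hxM ⟨⟨a, ha, hxa, ha'⟩, b, hb, hbx, hb'⟩
    have h1 := one_out hH hw hV hxM ha hb (Or.inl hxa) (Or.inr hbx) ha' hb'
    subst h1
    exact lt_asymm hxa.lt hbx.lt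

end order

end Pool.Agent.Lib.MP_5bc52d_co.Tree
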