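import Mathlib
import Pool.Agent.Lib.MP_5bc52d_co.Height2.Trivial
import Pool.Agent.Lib.MP_5bc52d_co.Tree.Order

/-!
# Conjugating a word by a letter
-/

open Finset Polynomial

set_option linter.unusedSectionVars false

namespace Pool.Agent.Lib.MP_5bc52d_co.Tree

open Key Cut

section conj
variable {P : Type*} [Fintype P] [DecidableEq P] {B : Type*} [CommRing B]

/-- the last letter of a word -/
theorem NL_last {r : P → P → Prop} {v : Bool → P → ℤ} (hv : ∀ c p, v (!c) p = - v c p)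
    (W : List (Bool × B)) (c : Bool) (z : B) (V : Finset P) :
    NL r v (W ++ [(!c, z)]) V =
      ∑ F ∈ wks (fun a b => r b a) (v c) V, z ^ F.card * NL r v W (V \ F) := by
  classical
  rw [NL_append]
  simp only [NL_single, mul_ite, mul_zero]
  rw [← Finset.sum_filter]
  refine Finset.sum_bij' (fun J _ => V \ J) (fun F _ => V \ F) ?_ ?_ ?_ ?_ ?_
  · intro J hJ
    rw [Finset.mem_filter, mem_dn] at hJ
    obtain ⟨⟨hJV, hJ'⟩, hW⟩ := hJ
    rw [mem_wks]
    refine ⟨Finset.sdiff_subset, fun a ha b hb hab => ?_⟩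
    rw [Finset.mem_sdiff] at hb
    have h1 : a ∈ V \ J := by
      rw [Finset.mem_sdiff]
      exact ⟨ha, fun h => hb.2 (hJ' b hb.1 a h hab)⟩
    refine ⟨h1, ?_⟩
    have h2 := (hW.2 b (Finset.mem_sdiff.mpr hb) a h1 hab).2
    rw [hv, hv] at h2
    omega
  · intro F hF
    rw [mem_wks] at hF
    rw [Finset.mem_filter, mem_dn]
    refine ⟨⟨Finset.sdiff_subset, fun a ha b hb hab => ?_⟩, ?_⟩
    · rw [Finset.mem_sdiff] at hb ⊢
      exact ⟨ha, fun h => hb.2 (hF.2 b hb.1 a h hab).1⟩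
    · rw [Finset.sdiff_sdiff_eq_self hF.1]
      refine ⟨Finset.Subset.refl _, fun a ha b hb hab => ⟨ha, ?_⟩⟩
      have h2 := (hF.2 b (hF.1 hb) a ha hab).2
      rw [hv, hv]
      omega
  · intro J hJ
    rw [Finset.mem_filter, mem_dn] at hJ
    exact Finset.sdiff_sdiff_eq_self hJ.1.1
  · intro F hF
    exact Finset.sdiff_sdiff_eq_self (mem_wks.mp hF).1
  · intro J hJ
    rw [Finset.mem_filter, mem_dn] at hJ
    rw [Finset.sdiff_sdiff_eq_self hJ.1.1, mul_comm]

/-- the value on a conjugated word -/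
theorem NL_conj {r : P → P → Prop} {v : Bool → P → ℤ} (hv : ∀ c p, v (!c) p = - v c p)
    (W : List (Bool × B)) (c : Bool) (y z : B) (U : Finset P) :
    NL r v ((c, y) :: (W ++ [(!c, z)])) U =
      ∑ I ∈ wks r (v c) U, ∑ F ∈ wks (fun a b => r b a) (v c) (U \ I),
        y ^ I.card * (z ^ F.card * NL r v W ((U \ I) \ F)) := by
  rw [NL]
  apply Finset.sum_congr rfl
  intro I _
  rw [NL_last hv, Finset.mul_sum]

end conj

section word
variable {B : Type*} [CommRing B]

/-- the word of the trivial word principle -/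
noncomputable def Wd (l : List (Bool × B)) (c : Bool) (t : B) : List (Bool × B[X]) :=
  l.map (fun q => (q.1, (C q.2 : B[X]))) ++ ([(!c, C t), (c, X - C t)] ++
    (mir l).map (fun q => (q.1, (C q.2 : B[X]))))

theorem Wd_cons (q : Bool × B) (l : List (Bool × B)) (c : Bool) (t : B) :
    Wd (q :: l) c t = (q.1, C q.2) :: (Wd l c t ++ [(!q.1, -C q.2)]) := by
  rw [Wd, Wd, mir_cons]
  simp

end word

section value
variable {P : Type*} [Fintype P] [DecidableEq P] [PartialOrder P]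
variable {Q : Subring R} (hQ : ∀ F : R, F ∈ Q ↔ IsQS F)

/-- the value of the word, as a ring homomorphism -/
noncomputable def evW (l : List (Bool × ℚ)) (c : Bool) (t : ℚ) : Q →+* ℚ[X] :=
  evL ((C : ℚ →+* ℚ[X]).comp ((algebraMap ℚ ℚ).comp (cc Q))) (lo hQ) (Wd l c t)

theorem evW_Gam {ω : P → ℕ} (hω : Function.Injective ω) (x : P) (l : List (Bool × ℚ))
    (c : Bool) (t : ℚ) (U : Finset P) :
    evW hQ l c t (GamQ hQ ω U) = NL (fun a b : P => a < b) (Cut.wt ω) (Wd l c t) U := by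
  rw [evW]
  apply evL_Gam (s := sg Q) rfl rfl ?_ (peelE_lo hQ hω)
  intro U
  rw [RingHom.comp_apply, RingHom.comp_apply, cc_GamQ hQ ω x]
  split_ifs <;> simp

include hQ in
/-- the value on a product of two nontrivial parts has no linear term -/
theorem lin_zero_of_split {ω : P → ℕ} (hω : Function.Injective ω) (x : P)
    (l : List (Bool × ℚ)) (c : Bool) (t : ℚ) {S T : Finset P} (hS : S.Nonempty)
    (hT : T.Nonempty) (hd : Disjoint S T) (h : ∀ a ∈ S, ∀ b ∈ T, ¬ a < b ∧ ¬ b < a) :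
    (NL (fun a b : P => a < b) (Cut.wt ω) (Wd l c t) (S ∪ T)).coeff 1 = 0 := by
  rw [← evW_Gam hQ hω x, GamQ_mul hQ ω S T hd h]
  apply evL_mul_coeff_one (lo_inv hQ)
  · rw [RingHom.comp_apply, cc_GamQ hQ ω x, if_neg hS.ne_empty, map_zero]
  · rw [RingHom.comp_apply, cc_GamQ hQ ω x, if_neg hT.ne_empty, map_zero]

end value

end Pool.Agent.Lib.MP_5bc52d_co.Tree
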