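import Mathlib
import Pool.Agent.Lib.MP_5bc52d_co.Height2.Pair
import Pool.Agent.Lib.MP_5bc52d_co.Tree.Conj

/-!
# Posets whose Hasse diagram is a tree
-/

open Finset Polynomial

set_option linter.unusedSectionVars false

namespace Pool.Agent.Lib.MP_5bc52d_co.Tree

open Key Cut

section main
variable {P : Type*} [Fintype P] [DecidableEq P] [PartialOrder P]
variable {Q : Subring R} (hQ : ∀ F : R, F ∈ Q ↔ IsQS F)

/-- the linear term of the value of the word -/
noncomputable def lin (ω : P → ℕ) (l : List (Bool × ℚ)) (c : Bool) (t : ℚ) (U : Finset P) : ℚ :=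
  (NL (fun a b : P => a < b) (Cut.wt ω) (Wd l c t) U).coeff 1

theorem lin_empty (ω : P → ℕ) (l : List (Bool × ℚ)) (c : Bool) (t : ℚ) :
    lin ω l c t ∅ = 0 := by
  rw [lin, NL_empty, Polynomial.coeff_one]
  simp

theorem wt_neg' (ω : P → ℕ) (c : Bool) : -(Cut.wt ω c) = Cut.wt ω (!c) := (wt_not ω c).symm

include hQ in
theorem lin_of_not_cn {ω : P → ℕ} (hω : Function.Injective ω) (l : List (Bool × ℚ))
    (c : Bool) (t : ℚ) {M : Finset P} (hM : Cvx M)
    (h : ¬ Cn (SimpleGraph.hasse P) M) : lin ω l c t M = 0 := by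
  classical
  rcases M.eq_empty_or_nonempty with h0 | h0
  · rw [h0, lin_empty]
  · rw [Cn, not_and] at h
    have h1 := h h0
    push Not at h1
    obtain ⟨T, hTM, hT, hcl, hne⟩ := h1
    obtain ⟨x, hx⟩ := hT
    have hT' : (M \ T).Nonempty := by
      rw [Finset.nonempty_iff_ne_empty]
      intro h2
      exact hne (Finset.Subset.antisymm hTM (Finset.sdiff_eq_empty_iff_subset.mp h2))
    have hrel : ∀ a ∈ M, ∀ b ∈ M, a ≤ b → (a ∈ T ↔ b ∈ T) := by
      intro a ha b hb hab
      obtain ⟨S, hS, haS, hbS, hS'⟩ := exists_chain b a hab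
      have hSM : S ⊆ M := by
        intro s hs
        obtain ⟨h2, h3⟩ := hS' s hs
        rcases h2.eq_or_lt with h4 | h4
        · exact h4 ▸ ha
        · rcases h3.eq_or_lt with h5 | h5
          · exact h5 ▸ hb
          · exact hM a ha b hb s h4 h5
      have h2 := hS.closed hSM hcl
      constructor
      · exact fun h3 => h2 ⟨a, Finset.mem_inter.mpr ⟨h3, haS⟩⟩ hbS
      · exact fun h3 => h2 ⟨b, Finset.mem_inter.mpr ⟨h3, hbS⟩⟩ haS
    have h3 := lin_zero_of_split hQ hω x l c t ⟨x, hx⟩ hT' Finset.disjoint_sdiff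
      (fun a ha b hb => by
        rw [Finset.mem_sdiff] at hb
        exact ⟨fun h4 => hb.2 ((hrel a (hTM ha) b hb.1 h4.le).mp ha),
          fun h4 => hb.2 ((hrel b hb.1 a (hTM ha) h4.le).mpr ha)⟩)
    rw [Finset.union_sdiff_of_subset hTM] at h3
    exact h3

theorem mid_cvx {w : P → ℤ} {U : Finset P} (hU : Cvx U) {p : Finset P × Finset P}
    (hp : p ∈ pr w U) : Cvx (mid U p) := by
  obtain ⟨hI, hF⟩ := mem_pr.mp hp
  intro a ha b hb x hax hxb
  rw [mem_mid] at ha hb ⊢
  have hx := hU a ha.1 b hb.1 x hax hxb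
  refine ⟨hx, fun h => ha.2.1 (hI.2 a ha.1 x h hax).1, fun h => ?_⟩
  exact hb.2.2 (hF.2 b (Finset.mem_sdiff.mpr ⟨hb.1, hb.2.1⟩) x h hxb).1

theorem card_mid {w : P → ℤ} {U : Finset P} {p : Finset P × Finset P} (hp : p ∈ pr w U) :
    p.1.card + p.2.card = U.card - (mid U p).card := by
  obtain ⟨hI, hF⟩ := mem_pr.mp hp
  have h1 := Finset.card_sdiff_of_subset hI.1
  have h2 := Finset.card_sdiff_of_subset hF.1
  have h3 := Finset.card_le_card hI.1
  have h4 := Finset.card_le_card hF.1
  rw [mid]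
  omega

/-- the value after conjugation -/
theorem lin_cons {ω : P → ℕ} (b : Bool) (y : ℚ) (l : List (Bool × ℚ)) (c : Bool) (t : ℚ)
    (U : Finset P) : lin ω ((b, y) :: l) c t U =
      ∑ M ∈ U.powerset, (SM (Cut.wt ω b) U M * lin ω l c t M) * y ^ (U.card - M.card) := by
  have hv : ∀ c p, Cut.wt ω (!c) p = - Cut.wt ω c p := fun c p => by rw [wt_not]; rfl
  rw [lin, Wd_cons, NL_conj hv, sum_pr (fun I F => (C y : ℚ[X]) ^ I.card * ((-C y) ^ F.card *
    NL (fun a b : P => a < b) (Cut.wt ω) (Wd l c t) ((U \ I) \ F)))]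
  rw [Polynomial.finsetSum_coeff]
  have h1 : ∀ p ∈ pr (Cut.wt ω b) U, ((C y : ℚ[X]) ^ p.1.card * ((-C y) ^ p.2.card *
      NL (fun a b : P => a < b) (Cut.wt ω) (Wd l c t) ((U \ p.1) \ p.2))).coeff 1 =
      ((-1) ^ p.2.card * lin ω l c t (mid U p)) * y ^ (U.card - (mid U p).card) := by
    intro p hp
    rw [← card_mid hp, ← C_neg, ← C_pow, ← C_pow, coeff_C_mul, coeff_C_mul, neg_pow, pow_add,
      lin, mid]
    ring
  rw [Finset.sum_congr rfl h1, ← Finset.sum_fiberwise_of_maps_to (g := fun p => mid U p)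
    (t := U.powerset)]
  · apply Finset.sum_congr rfl
    intro M _
    rw [SM, Finset.sum_mul, Finset.sum_mul]
    apply Finset.sum_congr rfl
    intro p hp
    rw [(Finset.mem_filter.mp hp).2]
  · intro p _
    rw [Finset.mem_powerset]
    exact Finset.sdiff_subset.trans Finset.sdiff_subset

/-- exactly one local maximum -/
theorem lin_base (hH : (SimpleGraph.hasse P).IsAcyclic) {ω : P → ℕ}
    (hω : Function.Injective ω) {U : Finset P} (hU : Cvx U) {z : P}
    (hz : Snk (SimpleGraph.hasse P) (Cut.wt ω true) U z)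
    (hz' : ∀ z', Snk (SimpleGraph.hasse P) (Cut.wt ω true) U z' → z' = z) :
    lin ω [] false 1 U ≠ 0 := by
  classical
  set u : P → ℤ := Cut.wt ω true with hu
  have huc : -(Cut.wt ω false) = u := wt_neg' ω false
  have huinj : Function.Injective u := wt_inj hω true
  have hv : ∀ c p, Cut.wt ω (!c) p = - Cut.wt ω c p := fun c p => by rw [wt_not]; rfl
  have hV : VM (SimpleGraph.hasse P) u U {z} := by
    refine ⟨Finset.singleton_subset_iff.mpr hz.1, cn_single z, fun z' h => Or.inl ?_⟩
    rw [hz' z' h]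
    exact Finset.mem_singleton_self z
  have hno : ∀ x, x ≠ z → ¬ (UO u U ∅ x ∧ DO u U ∅ x) := by
    rintro x hxz ⟨⟨a, ha, hxa, ha'⟩, b, hb, hbx, hb'⟩
    have h1 := one_out hH huinj hV (x := x) (by rw [Finset.mem_singleton]; exact hxz) ha hb
      (Or.inl hxa) (Or.inr hbx) (Or.inr (ha'.resolve_left (Finset.notMem_empty _)))
      (Or.inr (hb'.resolve_left (Finset.notMem_empty _)))
    subst h1
    exact lt_asymm hxa.lt hbx.lt
  have hzU : ¬ UO u U ∅ z := by
    rintro ⟨a, ha, hza, ha'⟩
    have h1 := hz.2 a ha (Or.inl hza)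
    have h2 := ha'.resolve_left (Finset.notMem_empty _)
    omega
  have hzD : ¬ DO u U ∅ z := by
    rintro ⟨a, ha, hza, ha'⟩
    have h1 := hz.2 a ha (Or.inr hza)
    have h2 := ha'.resolve_left (Finset.notMem_empty _)
    omega
  have hno' : ∀ x, ¬ (UO u U ∅ x ∧ DO u U ∅ x) := by
    intro x h
    by_cases hxz : x = z
    · exact hzU (hxz ▸ h.1)
    · exact hno x hxz h
  have hS1 : U.filter (fun x => ¬ DO u U ∅ x) ⊆ AL (fun a b : P => a < b) u U := by
    apply Wk_subset_AL
    refine wk_of_cov hU (Finset.filter_subset _ _) (fun b hb c hc hcb => ?_)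
    obtain ⟨hbU, hb'⟩ := Finset.mem_filter.mp hb
    have hlt : u c < u b := by
      rcases lt_trichotomy (u c) (u b) with h | h | h
      · exact h
      · exact absurd (huinj h) hcb.lt.ne
      · exact absurd ⟨c, hc, hcb, Or.inr h⟩ hb'
    exact ⟨Finset.mem_filter.mpr ⟨hc, fun h => hno' c ⟨⟨b, hbU, hcb, Or.inr hlt⟩, h⟩⟩, hlt⟩
  have hS2 : U.filter (fun x => ¬ UO u U ∅ x) ⊆ AL (fun a b : P => b < a) u U := by
    apply Wk_subset_AL
    refine wk_of_cov' hU (Finset.filter_subset _ _) (fun b hb c hc hbc => ?_)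
    obtain ⟨hbU, hb'⟩ := Finset.mem_filter.mp hb
    have hlt : u c < u b := by
      rcases lt_trichotomy (u c) (u b) with h | h | h
      · exact h
      · exact absurd (huinj h) hbc.lt.ne'
      · exact absurd ⟨c, hc, hbc, Or.inr h⟩ hb'
    exact ⟨Finset.mem_filter.mpr ⟨hc, fun h => hno' c ⟨h, ⟨b, hbU, hbc, Or.inr hlt⟩⟩⟩, hlt⟩
  have hPl : PlP (fun a b : P => a < b) (fun a b : P => b < a) (Cut.wt ω false) U U := by
    refine ⟨Finset.Subset.refl _, fun a ha _ _ _ => ha, fun x hx => ?_⟩
    rw [huc]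
    by_cases h : DO u U ∅ x
    · exact Or.inr (hS2 (Finset.mem_filter.mpr ⟨hx, fun h' => hno' x ⟨h', h⟩⟩))
    · exact Or.inl (hS1 (Finset.mem_filter.mpr ⟨hx, h⟩))
  have hFr : Fr (fun a b : P => a < b) (fun a b : P => b < a) (Cut.wt ω false) U = {z} := by
    ext x
    rw [Fr, huc, Finset.mem_inter, Finset.mem_singleton]
    constructor
    · rintro ⟨h1, h2⟩
      apply hz'
      rw [mem_AL] at h1 h2
      refine ⟨h1.1, fun y hy hxy => ?_⟩
      rcases hxy with h | h
      · exact h2.2 y hy x h1.1 h.lt (Or.inl rfl)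
      · exact h1.2 y hy x h1.1 h.lt (Or.inl rfl)
    · rintro rfl
      exact ⟨hS1 (Finset.mem_filter.mpr ⟨hz.1, hzD⟩), hS2 (Finset.mem_filter.mpr ⟨hz.1, hzU⟩)⟩
  have hw : Wd ([] : List (Bool × ℚ)) false 1 = [(!false, C 1), (false, X - C 1)] := by
    simp [Wd, mir]
  rw [lin, hw, NL_pair' (r := fun a b : P => a < b) (fun x y z h1 h2 => lt_trans h1 h2) hv,
    if_pos hPl, hFr,
    Finset.card_singleton, pow_one]
  have h1 : (C 1 : ℚ[X]) + (X - C 1) = X := by ring
  rw [h1, C_1, one_pow, one_mul, coeff_mul_X, coeff_zero_eq_eval_zero, eval_pow, eval_sub,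
    eval_X, eval_one, zero_sub]
  exact pow_ne_zero _ (by norm_num)

include hQ in
/-- the induction -/
theorem exists_word (hH : (SimpleGraph.hasse P).IsAcyclic) {ω : P → ℕ}
    (hω : Function.Injective ω) (n : ℕ) :
    ∀ U : Finset P, U.card = n → Cn (SimpleGraph.hasse P) U →
      ∃ (l : List (Bool × ℚ)) (c : Bool) (t : ℚ), lin ω l c t U ≠ 0 := by
  classical
  induction n using Nat.strong_induction_on with
  | _ n ih =>
    intro U hn hU
    have hUc := hU.cvx hH
    have hinj : Function.Injective (Cut.wt ω true) := wt_inj hω true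
    obtain ⟨z, hzU, hmax⟩ := Finset.exists_max_image U (Cut.wt ω true) hU.1
    have hz : Snk (SimpleGraph.hasse P) (Cut.wt ω true) U z := by
      refine ⟨hzU, fun y hy hzy => lt_of_le_of_ne (hmax y hy) (fun h => ?_)⟩
      exact hzy.ne (hinj h).symm
    by_cases hz' : ∀ z', Snk (SimpleGraph.hasse P) (Cut.wt ω true) U z' → z' = z
    · exact ⟨[], false, 1, lin_base hH hω hUc hz hz'⟩
    · push Not at hz'
      obtain ⟨z', hz', hne⟩ := hz'
      obtain ⟨M, hM, hMU, huniq⟩ := exists_min hH hU hz hz' hne.symm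
      obtain ⟨l, c, t, hl⟩ := ih M.card (hn ▸ hMU) M rfl hM.2.1
      obtain ⟨p₀, hp₀⟩ := hM.eq_one hH hinj hUc
      have hS : SM (Cut.wt ω true) U M ≠ 0 := by
        rw [SM, hp₀, Finset.sum_singleton]
        exact pow_ne_zero _ (by norm_num)
      set f : ℚ[X] := ∑ N ∈ U.powerset,
        C (SM (Cut.wt ω true) U N * lin ω l c t N) * X ^ (U.card - N.card) with hf
      have hf0 : f ≠ 0 := by
        intro h0
        have h1 : f.coeff (U.card - M.card) = 0 := by rw [h0, coeff_zero]
        rw [hf, finsetSum_coeff, Finset.sum_eq_single M] at h1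
        · rw [coeff_C_mul_X_pow, if_pos rfl] at h1
          exact mul_ne_zero hS hl h1
        · intro N hN hNM
          rw [coeff_C_mul_X_pow]
          split_ifs with h2
          · by_contra h3
            apply hNM
            rw [Finset.mem_powerset] at hN
            have h4 := left_ne_zero_of_mul h3
            have h5 := right_ne_zero_of_mul h3
            have h6 : ∃ p ∈ pr (Cut.wt ω true) U, mid U p = N := by
              by_contra h7
              push Not at h7
              apply h4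
              rw [SM, Finset.filter_eq_empty_iff.mpr (fun {p} hp => h7 p hp),
                Finset.sum_empty]
            obtain ⟨p, hp, hpN⟩ := h6
            have h7 : Cvx N := hpN ▸ mid_cvx hUc hp
            have h8 : Cn (SimpleGraph.hasse P) N := by
              by_contra h9
              exact h5 (lin_of_not_cn hQ hω l c t h7 h9)
            apply huniq N
            · refine ⟨hN, h8, fun y hy => ?_⟩
              by_contra h9
              rw [not_or] at h9
              apply h4
              refine SM_zero hUc hy h9.1 (fun m hm h10 => h9.2 ⟨m, hm, h10⟩)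
            · have h9 := Finset.card_le_card hN
              omega
          · rfl
        · intro h2
          exact absurd (Finset.mem_powerset.mpr hM.1) h2
      obtain ⟨y, hy⟩ : ∃ y : ℚ, f.eval y ≠ 0 := by
        by_contra h1
        push Not at h1
        exact hf0 (Polynomial.funext (fun y => by rw [h1 y, eval_zero]))
      refine ⟨(true, y) :: l, c, t, ?_⟩
      rw [lin_cons]
      rw [hf, eval_finsetSum] at hy
      convert hy using 1
      apply Finset.sum_congr rfl
      intro N _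
      rw [eval_mul, eval_C, eval_pow, eval_X]

/-- a poset whose Hasse diagram is a tree -/
theorem irreducible_tree (hH : (SimpleGraph.hasse P).IsAcyclic) {ω : P → ℕ}
    (hω : Function.Injective ω) {U : Finset P} (hU : Cn (SimpleGraph.hasse P) U) :
    Irreducible (GamQ hQ ω U) := by
  obtain ⟨l, c, t, h⟩ := exists_word hQ hH hω U.card U rfl hU
  obtain ⟨x, hx⟩ := hU.1
  apply irreducible_of_word hQ x ⟨x, hx⟩ (B := ℚ) l c t
  have h1 := evW_Gam hQ hω x l c t U
  rw [evW, Wd] at h1
  rw [h1]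
  exact h

theorem cn_univ (hH : (SimpleGraph.hasse P).Connected) :
    Cn (SimpleGraph.hasse P) (univ : Finset P) := by
  have hpre := hH.preconnected
  obtain ⟨x⟩ := hH.nonempty
  refine ⟨⟨x, Finset.mem_univ x⟩, fun T _ hT hcl => ?_⟩
  obtain ⟨a, ha⟩ := hT
  ext y
  refine ⟨fun _ => Finset.mem_univ y, fun _ => ?_⟩
  obtain ⟨p⟩ := hpre a y
  exact walk_closed hcl p (fun z _ => Finset.mem_univ z) ha

theorem irreducible_tree_univ (hH : (SimpleGraph.hasse P).IsTree) {ω : P → ℕ}
    (hω : Function.Injective ω) : Irreducible (GamQ hQ ω (univ : Finset P)) :=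
  irreducible_tree hQ hH.isAcyclic hω (cn_univ hH.connected)

end main

end Pool.Agent.Lib.MP_5bc52d_co.Tree
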